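import Pool.Agent.H29.PExt2

namespace Pool.Agent.Results.MP_4d6431_an.Q1

open Filter Topology Pool.Agent.H29.PExt
open scoped ENNReal

/-- The supremum of the absolute `p`-extendability constants of spaces with at most `n` points. -/
noncomputable def aeN (p : ℝ) (n : ℕ) : ℝ≥0∞ :=
  ⨆ (A : Type) (_ : MetricSpace A) (_ : Nonempty A) (_ : ENat.card A ≤ n), ae ℝ p A

theorem result (n : ℕ) (hn : 3 ≤ n) : Tendsto (fun p => aeN p n) (𝓝[>] 0) (𝓝 ⊤) := by
  refine tendsto_nhds_top_mono (ae_tendsto ℝ) (Eventually.of_forall fun p => ?_)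
  exact le_iSup_of_le A3 (le_iSup_of_le inferInstance (le_iSup_of_le ⟨va⟩
    (le_iSup_of_le (card_A3.trans (by exact_mod_cast hn)) le_rfl)))

end Pool.Agent.Results.MP_4d6431_an.Q1
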