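import Pool.Agent.H29.PExt3

namespace Pool.Agent.Results.MP_4d6431_an.Q2

open Filter Topology Pool.Agent.H29.PExt
open scoped ENNReal

/-- `S(n,m)`, where `L` reads off the limit of a function of `p` as `p → 0`. -/
noncomputable def S (L : (ℝ → ℝ≥0∞) → ℝ≥0∞) (n m : ℕ) : ℝ≥0∞ :=
  ⨆ (A : Type) (M : Type) (_ : MetricSpace A) (_ : MetricSpace M) (ι : A → M) (_ : Isometry ι)
    (_ : Nonempty A) (_ : ENat.card A ≤ n) (_ : (Set.range ι)ᶜ.encard ≤ m),
    L fun p => tr ℝ p ι

theorem result (n m : ℕ) (hn : 3 ≤ n) :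
    S (fun F => liminf F (𝓝[>] 0)) n m = m + 1 ∧ S (fun F => limsup F (𝓝[>] 0)) n m = m + 1 := by
  have lo : (m + 1 : ℝ≥0∞) ≤ S (fun F => liminf F (𝓝[>] 0)) n m := by
    refine le_iSup_of_le A3 (le_iSup_of_le (Mm m) (le_iSup_of_le inferInstance
      (le_iSup_of_le inferInstance (le_iSup_of_le (inc m) (le_iSup_of_le (inc_iso m)
      (le_iSup_of_le ⟨va⟩ (le_iSup_of_le (card_A3.trans (by exact_mod_cast hn))
      (le_iSup_of_le (card_compl m) ?_))))))))
    refine le_of_forall_lt_imp_le_of_dense fun c hc => ?_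
    have hc' : c ≠ ⊤ := hc.ne_top
    rcases eq_or_ne c 0 with rfl | h0
    · exact zero_le
    · have h1 : c.toReal < m + 1 := by
        have := (ENNReal.toReal_lt_toReal hc' (by simp)).2 hc
        rwa [ENNReal.toReal_add (by simp) (by simp), ENNReal.toReal_natCast,
          ENNReal.toReal_one] at this
      have := lower ℝ m (ENNReal.toReal_pos h0 hc') h1
      rw [ENNReal.ofReal_toReal hc'] at this
      exact le_liminf_of_le (by isBoundedDefault) this
  have hi : S (fun F => limsup F (𝓝[>] 0)) n m ≤ m + 1 := by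
    refine iSup_le fun A => iSup_le fun M => iSup_le fun _ => iSup_le fun _ => iSup_le fun ι =>
      iSup_le fun hι => iSup_le fun _ => iSup_le fun hA => iSup_le fun hm => ?_
    exact limsup_le_of_le (by isBoundedDefault)
      (Eventually.of_forall fun p => tr_le ℝ p hι hA hm)
  have mid : S (fun F => liminf F (𝓝[>] 0)) n m ≤ S (fun F => limsup F (𝓝[>] 0)) n m := by
    unfold S
    gcongr
    exact liminf_le_limsup
  exact ⟨le_antisymm (mid.trans hi) lo, le_antisymm hi (lo.trans mid)⟩

end Pool.Agent.Results.MP_4d6431_an.Q2
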